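import Mathlib

/-!
A simple right alternative ring with eight elements, generated by one element (hence by two
elements), without a finite normal series of ideals with associative quotients.
-/

namespace Pool.Agent.Helper5.RightAlternativeChar2

/-- The right alternative law `(x, y, y) = 0`. -/
def IsRightAlternative (A : Type) [NonUnitalNonAssocRing A] : Prop :=
  ∀ x y : A, (x * y) * y = x * (y * y)

/-- A finite chain `0 = I 0 ≤ I 1 ≤ ... ≤ I n = A` of two-sided ideals of `A` such that every
quotient ring `I (k+1) / I k` is associative, that is, the associator of any three elements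
of `I (k+1)` lies in `I k`. -/
def HasAssociativeSeries (A : Type) [NonUnitalNonAssocRing A] : Prop :=
  ∃ (n : ℕ) (I : Fin (n + 1) → TwoSidedIdeal A), I 0 = ⊥ ∧ I (Fin.last n) = ⊤ ∧
    ∀ k : Fin n, I k.castSucc ≤ I k.succ ∧
      ∀ x y z : A, x ∈ I k.succ → y ∈ I k.succ → z ∈ I k.succ →
        (x * y) * z - x * (y * z) ∈ I k.castSucc

/-- The multiplication of the example, on coordinates over `ZMod 2`:
`e0 e0 = e2`, `e0 e1 = e0`, `e0 e2 = e1`, `e1 e1 = e1`, `e2 e0 = e1`, other products zero. -/
def mulTab (x y : Fin 3 → ZMod 2) : Fin 3 → ZMod 2 :=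
  ![x 0 * y 1, x 0 * y 2 + x 1 * y 1 + x 2 * y 0, x 0 * y 0]

/-- The example ring: the additive group is `(ZMod 2)^3`. -/
@[reducible] def ringInst : NonUnitalNonAssocRing (Fin 3 → ZMod 2) :=
  { (inferInstance : AddCommGroup (Fin 3 → ZMod 2)) with
    mul := mulTab
    left_distrib := by
      intro a b c
      show mulTab a (b + c) = mulTab a b + mulTab a c
      funext i; fin_cases i <;> simp [mulTab] <;> ring
    right_distrib := by
      intro a b c
      show mulTab (a + b) c = mulTab a c + mulTab b c
      funext i; fin_cases i <;> simp [mulTab] <;> ring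
    zero_mul := by
      intro a
      show mulTab 0 a = 0
      funext i; fin_cases i <;> simp [mulTab]
    mul_zero := by
      intro a
      show mulTab a 0 = 0
      funext i; fin_cases i <;> simp [mulTab] }

theorem mulTab_ra : ∀ x y : Fin 3 → ZMod 2,
    mulTab (mulTab x y) y = mulTab x (mulTab y y) := by
  decide +kernel

/-- From every nonzero element one reaches `e0` by three multiplications. -/
theorem reach : ∀ x : Fin 3 → ZMod 2, x ≠ 0 →
    ∃ p q r : Fin 3 → ZMod 2,
      mulTab p (mulTab q (mulTab r x)) = ![1, 0, 0] ∨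
      mulTab p (mulTab q (mulTab x r)) = ![1, 0, 0] ∨
      mulTab p (mulTab (mulTab x r) q) = ![1, 0, 0] := by
  decide +kernel

/-- Every element is a sum of some of `e0`, `e0 (e0 e0)` and `e0 e0`. -/
theorem expand : ∀ x : Fin 3 → ZMod 2,
    x = (if x 0 = 1 then ![1, 0, 0] else 0) +
      ((if x 1 = 1 then mulTab ![1, 0, 0] (mulTab ![1, 0, 0] ![1, 0, 0]) else 0) +
      (if x 2 = 1 then mulTab ![1, 0, 0] ![1, 0, 0] else 0)) := by
  decide +kernel

/-- There is a right alternative ring `A` with exactly eight elements, generated as a ring by one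
element `a` (a fortiori by the two elements `a, b` for every `b`), which is simple and has no
finite normal series of ideals with associative quotients. -/
theorem result : ∃ (A : Type) (_ : NonUnitalNonAssocRing A),
    IsRightAlternative A ∧
    (∃ a : A, ∀ b : A, NonUnitalSubring.closure ({a, b} : Set A) = ⊤) ∧
    Nat.card A = 8 ∧
    (∀ I : TwoSidedIdeal A, I = ⊥ ∨ I = ⊤) ∧
    ¬ HasAssociativeSeries A := by
  have hsimple : ∀ I : @TwoSidedIdeal (Fin 3 → ZMod 2) ringInst,
      ∀ x ∈ I, x ≠ 0 → ∀ y, y ∈ I := by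
    let _ := ringInst
    intro I x hx hx0 y
    have h0 : (![1, 0, 0] : Fin 3 → ZMod 2) ∈ I := by
      obtain ⟨p, q, r, h | h | h⟩ := reach x hx0
      · rw [← h]
        exact I.mul_mem_left _ _ (I.mul_mem_left _ _ (I.mul_mem_left _ _ hx))
      · rw [← h]
        exact I.mul_mem_left _ _ (I.mul_mem_left _ _ (I.mul_mem_right _ _ hx))
      · rw [← h]
        exact I.mul_mem_left _ _ (I.mul_mem_right _ _ (I.mul_mem_right _ _ hx))
    have h2 : mulTab ![1, 0, 0] ![1, 0, 0] ∈ I := I.mul_mem_left ![1, 0, 0] _ h0
    have h1 : mulTab ![1, 0, 0] (mulTab ![1, 0, 0] ![1, 0, 0]) ∈ I :=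
      I.mul_mem_left ![1, 0, 0] _ h2
    rw [expand y]
    refine I.add_mem ?_ (I.add_mem ?_ ?_)
    · split_ifs
      · exact h0
      · exact I.zero_mem
    · split_ifs
      · exact h1
      · exact I.zero_mem
    · split_ifs
      · exact h2
      · exact I.zero_mem
  refine ⟨Fin 3 → ZMod 2, ringInst, ?_, ?_, ?_, ?_, ?_⟩
  · intro x y
    exact mulTab_ra x y
  · refine ⟨![1, 0, 0], fun b => ?_⟩
    let _ := ringInst
    rw [eq_top_iff]
    intro x _
    have h0 : (![1, 0, 0] : Fin 3 → ZMod 2) ∈
        NonUnitalSubring.closure ({![1, 0, 0], b} : Set (Fin 3 → ZMod 2)) :=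
      NonUnitalSubring.subset_closure (by simp)
    have h2 : mulTab ![1, 0, 0] ![1, 0, 0] ∈
        NonUnitalSubring.closure ({![1, 0, 0], b} : Set (Fin 3 → ZMod 2)) :=
      NonUnitalSubring.mul_mem _ h0 h0
    have h1 : mulTab ![1, 0, 0] (mulTab ![1, 0, 0] ![1, 0, 0]) ∈
        NonUnitalSubring.closure ({![1, 0, 0], b} : Set (Fin 3 → ZMod 2)) :=
      NonUnitalSubring.mul_mem _ h0 h2
    rw [expand x]
    refine add_mem ?_ (add_mem ?_ ?_)
    · split_ifs
      · exact h0
      · exact zero_mem _
    · split_ifs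
      · exact h1
      · exact zero_mem _
    · split_ifs
      · exact h2
      · exact zero_mem _
  · simp
  · let _ := ringInst
    intro I
    by_cases h : ∃ x ∈ I, x ≠ 0
    · obtain ⟨x, hx, hx0⟩ := h
      right
      rw [eq_top_iff]
      intro y _
      exact hsimple I x hx hx0 y
    · left
      rw [eq_bot_iff]
      intro x hx
      by_contra hx0
      exact h ⟨x, hx, fun h' => hx0 (by rw [h']; exact TwoSidedIdeal.zero_mem _)⟩
  · let _ := ringInst
    rintro ⟨n, I, h0, hn, hI⟩
    have key : ∀ k : Fin (n + 1), I k = ⊥ := by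
      intro k
      induction k using Fin.induction with
      | zero => exact h0
      | succ k ih =>
        rw [eq_bot_iff]
        intro x hx
        by_contra hx0
        have hx1 : x ≠ 0 := fun h' => hx0 (by rw [h']; exact TwoSidedIdeal.zero_mem _)
        have hall := hsimple (I k.succ) x hx hx1
        have := (hI k).2 ![1, 0, 0] ![1, 0, 0] ![0, 1, 0] (hall _) (hall _) (hall _)
        rw [ih] at this
        have h' : mulTab (mulTab ![1, 0, 0] ![1, 0, 0]) ![0, 1, 0] -
            mulTab ![1, 0, 0] (mulTab ![1, 0, 0] ![0, 1, 0]) = (0 : Fin 3 → ZMod 2) := this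
        revert h'
        decide +kernel
    have h1 : (![1, 0, 0] : Fin 3 → ZMod 2) ∈ (⊤ : TwoSidedIdeal (Fin 3 → ZMod 2)) := trivial
    rw [← hn, key] at h1
    have h' : (![1, 0, 0] : Fin 3 → ZMod 2) = 0 := h1
    revert h'
    decide +kernel

end Pool.Agent.Helper5.RightAlternativeChar2
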